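import Pool.Agent.Helper37.ETC.Defs

/-!
# ETC-G1, ETC-G2: infinite Galois theory for a compact group acting on a field
-/

set_option autoImplicit false

namespace Pool.Helper37.ETC

open Module Polynomial

section G12aux

variable {G K : Type*} [Group G] [TopologicalSpace G] [IsTopologicalGroup G] [Field K]
  [MulSemiringAction G K]

theorem g12_lc (hc : ∀ x : K, IsOpen {σ : G | σ • x = x}) (y : K) :
    IsLocallyConstant (fun g : G => g • y) := by
  rw [IsLocallyConstant.iff_isOpen_fiber]
  intro z
  by_cases h : ∃ g₀ : G, g₀ • y = z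
  · obtain ⟨g₀, rfl⟩ := h
    have e : (fun g : G => g • y) ⁻¹' {g₀ • y} = (fun g => g₀⁻¹ * g) ⁻¹' {σ : G | σ • y = y} := by
      ext g
      simp only [Set.mem_preimage, Set.mem_singleton_iff, Set.mem_ofPred_eq, mul_smul,
        inv_smul_eq_iff]
    rw [e]
    exact (hc y).preimage (continuous_const_mul _)
  · have e : (fun g : G => g • y) ⁻¹' {z} = ∅ := by
      ext g
      simp only [Set.mem_preimage, Set.mem_singleton_iff, Set.mem_empty_iff_false, iff_false]
      exact fun h' => h ⟨g, h'⟩
    rw [e]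
    exact isOpen_empty

theorem g12_lc_pi (hc : ∀ x : K, IsOpen {σ : G | σ • x = x}) {n : ℕ} (y : Fin n → K) :
    IsLocallyConstant (fun g : G => fun i => g • y i) := by
  rw [IsLocallyConstant.iff_eventually_eq]
  intro g
  have h : ∀ i : Fin n, ∀ᶠ g' in nhds g, g' • y i = g • y i := fun i =>
    (IsLocallyConstant.iff_eventually_eq _).1 (g12_lc hc (y i)) g
  filter_upwards [Filter.eventually_all.2 h] with g' hg'
  exact funext hg'

variable [CompactSpace G]

/-- Finite families. -/
theorem g12_key (hc : ∀ x : K, IsOpen {σ : G | σ • x = x}) {L : Type*} [Field L] (α β : L →+* K)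
    (hfix : ∀ x ∈ (Fx G : Set K), ∃ l : L, α l = x ∧ β l = x) {n : ℕ} (x : Fin n → L) :
    ∃ g : G, ∀ i, β (x i) = g • α (x i) := by
  classical
  -- the polynomial of the family
  let P : L[X] := ∑ i : Fin n, C (x i) * X ^ (i : ℕ)
  have hPc : ∀ i : Fin n, P.coeff i = x i := by
    intro i
    simp only [P, finsetSum_coeff, coeff_C_mul, coeff_X_pow]
    rw [Finset.sum_eq_single i]
    · simp
    · intro j _ hj
      rw [if_neg, mul_zero]
      intro h
      exact hj (Fin.ext h.symm)
    · intro h
      exact absurd (Finset.mem_univ i) h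
  let act : G → K →+* K := fun g => MulSemiringAction.toRingHom G K g
  have hact : ∀ (g : G) (y : K), act g y = g • y := fun _ _ => rfl
  let Q : G → K[X] := fun g => (P.map α).map (act g)
  -- the orbit is finite
  have hfin : (Set.range Q).Finite := by
    have h1 : IsLocallyConstant Q := by
      have h2 : Q = (fun f : Fin n → K => ∑ i : Fin n, C (f i) * X ^ (i : ℕ)) ∘
          (fun g : G => fun i => g • α (x i)) := by
        funext g
        simp only [Q, P, Function.comp, Polynomial.map_sum, Polynomial.map_mul, map_C,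
          Polynomial.map_pow, map_X, hact]
      rw [h2]
      exact (g12_lc_pi hc (fun i => α (x i))).comp _
    exact h1.range_finite
  let S : Finset K[X] := hfin.toFinset
  have hS : ∀ q, q ∈ S ↔ ∃ g, Q g = q := fun q => by
    simp [S]
  -- the polynomial of the orbit
  let f : K[X][X] := ∏ q ∈ S, (X - C q)
  have hQ : ∀ g g' : G, (Q g').map (act g) = Q (g * g') := by
    intro g g'
    simp only [Q]
    rw [Polynomial.map_map (act g') (act g)]
    congr 1
    ext y
    simp only [RingHom.comp_apply, hact, mul_smul]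
  have hinv : ∀ g : G, f.map (mapRingHom (act g)) = f := by
    intro g
    simp only [f, Polynomial.map_prod, Polynomial.map_sub, map_X, map_C, coe_mapRingHom]
    refine Finset.prod_bij (fun q _ => q.map (act g)) ?_ ?_ ?_ ?_
    · intro q hq
      obtain ⟨g', rfl⟩ := (hS q).1 hq
      exact (hS _).2 ⟨g * g', (hQ g g').symm⟩
    · intro q _ q' _ h
      exact Polynomial.map_injective (act g) (act g).injective h
    · intro q hq
      obtain ⟨g', rfl⟩ := (hS q).1 hq
      refine ⟨Q (g⁻¹ * g'), (hS _).2 ⟨_, rfl⟩, ?_⟩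
      rw [hQ, mul_inv_cancel_left]
    · intro q _
      rfl
  have hcoef : ∀ i j : ℕ, ((f.coeff i).coeff j) ∈ (Fx G : Set K) := by
    intro i j g
    have h1 := congrArg (fun q : K[X][X] => (q.coeff i).coeff j) (hinv g)
    simp only [coeff_map, coe_mapRingHom, hact] at h1
    exact h1
  -- the descent
  let R : Subring L := RingHom.eqLocus α β
  let ρ : R →+* K := α.comp R.subtype
  have hρ : ρ = β.comp R.subtype := by
    ext l
    exact l.2
  have hlift1 : ∀ i : ℕ, f.coeff i ∈ Set.range (mapRingHom ρ) := by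
    intro i
    have h1 : f.coeff i ∈ lifts ρ := by
      rw [lifts_iff_coeff_lifts]
      intro j
      obtain ⟨l, h2, h3⟩ := hfix _ (hcoef i j)
      exact ⟨⟨l, h2.trans h3.symm⟩, h2⟩
    obtain ⟨q, hq⟩ := (mem_lifts _).1 h1
    exact ⟨q, hq⟩
  obtain ⟨f₀, hf₀⟩ := (mem_lifts (f := mapRingHom ρ) f).1
    ((lifts_iff_coeff_lifts f).2 hlift1)
  let e : L[X] := f₀.eval₂ (mapRingHom R.subtype) P
  have hα : e.map α = f.eval (P.map α) := by
    simp only [e]
    rw [← coe_mapRingHom α, hom_eval₂, mapRingHom_comp, ← hf₀, eval_map]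
  have hβ : e.map β = f.eval (P.map β) := by
    simp only [e]
    rw [← coe_mapRingHom β, hom_eval₂, mapRingHom_comp, ← hf₀, eval_map, hρ]
  have h0 : f.eval (P.map α) = 0 := by
    simp only [f, eval_prod, eval_sub, eval_X, eval_C]
    refine Finset.prod_eq_zero (i := P.map α) ?_ (sub_self _)
    rw [hS]
    refine ⟨1, ?_⟩
    simp only [Q]
    have : act 1 = RingHom.id K := by
      ext y
      simp only [hact, one_smul, RingHom.id_apply]
    rw [this, Polynomial.map_id]
  have he : e = 0 := by
    rw [h0] at hα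
    exact (Polynomial.map_eq_zero_iff α.injective).1 hα
  rw [he, Polynomial.map_zero] at hβ
  simp only [f, eval_prod, eval_sub, eval_X, eval_C] at hβ
  obtain ⟨q, hq, h1⟩ := Finset.prod_eq_zero_iff.1 hβ.symm
  obtain ⟨g, rfl⟩ := (hS q).1 hq
  refine ⟨g, fun i => ?_⟩
  have h2 := congrArg (fun r : K[X] => r.coeff i) (sub_eq_zero.1 h1)
  simp only [Q, coeff_map, hPc, hact] at h2
  exact h2

/-- All elements. -/
theorem g12_all (hc : ∀ x : K, IsOpen {σ : G | σ • x = x}) {L : Type*} [Field L] (α β : L →+* K)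
    (hfix : ∀ x ∈ (Fx G : Set K), ∃ l : L, α l = x ∧ β l = x) :
    ∃ g : G, ∀ l, β l = g • α l := by
  have h1 : (⋂ l : L, {g : G | β l = g • α l}).Nonempty := by
    apply CompactSpace.iInter_nonempty
    · intro l
      have h2 : {g : G | β l = g • α l} = (fun g : G => g • α l) ⁻¹' {β l} := by
        ext g
        simp only [Set.mem_ofPred_eq, Set.mem_preimage, Set.mem_singleton_iff, eq_comm]
      rw [h2]
      exact (g12_lc hc (α l)).isClosed_fiber _
    · intro s
      obtain ⟨g, hg⟩ := g12_key hc α β hfix (fun i => ((s.equivFin.symm i : s) : L))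
      refine ⟨g, ?_⟩
      simp only [Set.mem_iInter, Set.mem_ofPred_eq]
      intro l hl
      have := hg (s.equivFin ⟨l, hl⟩)
      simpa using this
  obtain ⟨g, hg⟩ := h1
  exact ⟨g, fun l => Set.mem_iInter.1 hg l⟩

end G12aux

section Galois

variable {p : ℕ} [Fact p.Prime] {G K : Type*} [Group G] [TopologicalSpace G]
  [IsTopologicalGroup G] [CompactSpace G] [T2Space G] [TotallyDisconnectedSpace G] [Field K]
  [MulSemiringAction G K] {ζ : K}

/-- G1 (infinite Galois theory) -/
theorem mem_of_fix (hc : ∀ x : K, IsOpen {σ : G | σ • x = x})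
    (hf : ∀ σ : G, (∀ x : K, σ • x = x) → σ = 1) (D : Subgroup G)
    (hD : IsClosed (D : Set G)) (σ : G)
    (h : ∀ x : K, (∀ δ ∈ D, δ • x = x) → σ • x = x) : σ ∈ D := by
  have : CompactSpace D := isCompact_iff_compactSpace.1 hD.isCompact
  have hcD : ∀ x : K, IsOpen {τ : D | τ • x = x} := fun x =>
    (hc x).preimage continuous_subtype_val
  obtain ⟨g, hg⟩ := g12_all (G := D) hcD (RingHom.id K) (MulSemiringAction.toRingHom G K σ) (by
    intro x hx
    exact ⟨x, rfl, h x fun δ hδ => hx ⟨δ, hδ⟩⟩)
  have h1 : (g : G)⁻¹ * σ = 1 := hf _ fun x => by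
    rw [mul_smul, inv_smul_eq_iff]
    exact hg x
  have h2 : σ = g := by
    rw [inv_mul_eq_one] at h1
    exact h1.symm
  rw [h2]
  exact g.2

/-- G2 (infinite Galois theory) -/
theorem mem_of_fixed (hc : ∀ x : K, IsOpen {σ : G | σ • x = x})
    (hf : ∀ σ : G, (∀ x : K, σ • x = x) → σ = 1) (C : Subfield K)
    (hC : ∀ x ∈ (Fx G : Set K), x ∈ C) (y : K)
    (h : ∀ σ : G, (∀ x ∈ C, σ • x = x) → σ • y = y) : y ∈ C := by
  classical
  by_contra hy
  let act : G → K →+* K := fun g => MulSemiringAction.toRingHom G K g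
  have hact : ∀ (g : G) (y : K), act g y = g • y := fun _ _ => rfl
  -- the polynomial of the orbit of `y`
  have hfin : (Set.range fun g : G => g • y).Finite := (g12_lc hc y).range_finite
  let S : Finset K := hfin.toFinset
  have hS : ∀ q, q ∈ S ↔ ∃ g : G, g • y = q := fun q => by simp [S]
  let f : K[X] := ∏ q ∈ S, (X - Polynomial.C q)
  have hinv : ∀ g : G, f.map (act g) = f := by
    intro g
    simp only [f, Polynomial.map_prod, Polynomial.map_sub, map_X, map_C]
    refine Finset.prod_bij (fun q _ => act g q) ?_ ?_ ?_ ?_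
    · intro q hq
      obtain ⟨g', rfl⟩ := (hS q).1 hq
      exact (hS _).2 ⟨g * g', mul_smul _ _ _⟩
    · intro q _ q' _ h
      exact (act g).injective h
    · intro q hq
      obtain ⟨g', rfl⟩ := (hS q).1 hq
      refine ⟨(g⁻¹ * g') • y, (hS _).2 ⟨_, rfl⟩, ?_⟩
      rw [hact, ← mul_smul, mul_inv_cancel_left]
    · intro q _
      rfl
  have hlift : f ∈ lifts (algebraMap C K) := by
    rw [lifts_iff_coeff_lifts]
    intro i
    refine ⟨⟨f.coeff i, hC _ fun g => ?_⟩, rfl⟩
    have h1 := congrArg (fun q : K[X] => q.coeff i) (hinv g)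
    simp only [coeff_map, hact] at h1
    exact h1
  obtain ⟨f₀, hf₀⟩ := (mem_lifts f).1 hlift
  have hfmonic : f.Monic := monic_prod_of_monic _ _ fun q _ => monic_X_sub_C q
  have hf0 : f.eval y = 0 := by
    simp only [f, eval_prod, eval_sub, eval_X, Polynomial.eval_C]
    exact Finset.prod_eq_zero ((hS y).2 ⟨1, one_smul _ _⟩) (sub_self _)
  have hf₀monic : f₀.Monic := by
    apply Polynomial.monic_of_injective (algebraMap C K).injective
    rw [hf₀]
    exact hfmonic
  have haev : aeval y f₀ = 0 := by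
    rw [aeval_def, ← eval_map, hf₀, hf0]
  have hint : IsIntegral C y := ⟨f₀, hf₀monic, by rw [← aeval_def]; exact haev⟩
  have hdvd : (minpoly C y).map (algebraMap C K) ∣ f := by
    rw [← hf₀]
    exact Polynomial.map_dvd _ (minpoly.dvd C y haev)
  have hsplit : f.Splits := Splits.prod fun q _ => Splits.X_sub_C q
  have hsplit' : ((minpoly C y).map (algebraMap C K)).Splits :=
    hsplit.of_dvd hfmonic.ne_zero hdvd
  have hsep : f.Separable := by
    apply separable_prod_X_sub_C_iff'.2
    intro a _ b _ hab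
    exact hab
  have hnodup : ((minpoly C y).map (algebraMap C K)).roots.Nodup :=
    nodup_roots (hsep.of_dvd hdvd)
  have hdeg : 2 ≤ (minpoly C y).natDegree := by
    rw [minpoly.two_le_natDegree_iff hint]
    rintro ⟨c, hc'⟩
    apply hy
    rw [← hc']
    exact c.2
  have hcard : 2 ≤ ((minpoly C y).map (algebraMap C K)).roots.toFinset.card := by
    rw [Multiset.toFinset_card_of_nodup hnodup, ← hsplit'.natDegree_eq_card_roots, natDegree_map]
    exact hdeg
  obtain ⟨y', hy', hne⟩ := Finset.exists_mem_ne (lt_of_lt_of_le one_lt_two hcard) y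
  have hroot : (minpoly C y).eval₂ (algebraMap C K) y' = 0 := by
    rw [Multiset.mem_toFinset, mem_roots'] at hy'
    rw [← eval_map]
    exact hy'.2
  -- the two embeddings
  have : Fact (Irreducible (minpoly C y)) := ⟨minpoly.irreducible hint⟩
  obtain ⟨g, hg⟩ := g12_all hc
    (AdjoinRoot.lift (algebraMap C K) y (by rw [← aeval_def]; exact minpoly.aeval C y) :
      AdjoinRoot (minpoly C y) →+* K)
    (AdjoinRoot.lift (algebraMap C K) y' hroot) (by
      intro x hx
      refine ⟨AdjoinRoot.of _ ⟨x, hC x hx⟩, ?_, ?_⟩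
      · rw [AdjoinRoot.lift_of]; rfl
      · rw [AdjoinRoot.lift_of]; rfl)
  have h1 := hg (AdjoinRoot.root _)
  rw [AdjoinRoot.lift_root, AdjoinRoot.lift_root] at h1
  have h2 : g • y = y := by
    apply h g
    intro x hx
    have h3 := hg (AdjoinRoot.of _ ⟨x, hx⟩)
    rw [AdjoinRoot.lift_of, AdjoinRoot.lift_of] at h3
    exact h3.symm
  exact hne (h1.trans h2)

end Galois

end Pool.Helper37.ETC
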